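import Pool.Agent.helper42.NS.Spec2

set_option autoImplicit false

namespace Pool.Agent.helper42.NS

open Polynomial Matrix

lemma DTP_top (h : PBH_stmt) (t k p : ℕ) (H : Matrix (Fin t) (Fin t) ℤ) (B : Fin k → Fin t → Bool)
    (hH : ∀ i j, H i j = H j i) (hbad : ∀ P : Pt, Above p P → ¬ Bad P H B) :
    Kry H ({v | ∃ i, v = ind (B i)} ∪ {v | ∃ j, v = Pi.single j (p : ℤ)}) = ⊤ := by
  by_contra hne
  obtain ⟨P, u, hu0, huE, hu⟩ := h t H _ hH hne
  letI : Field (KP P) := haveI := P.isMaximal; Ideal.Quotient.field P.asIdeal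
  have h2 : ∀ j, (p : KP P) * u j = 0 := by
    intro j
    have h3 := hu (Pi.single j (p : ℤ)) (Or.inr ⟨j, rfl⟩)
    rw [Finset.sum_eq_single j] at h3
    · simpa using h3
    · intro i _ hij
      rw [Pi.single_eq_of_ne hij]
      simp
    · intro hj
      exact absurd (Finset.mem_univ j) hj
  obtain ⟨j, hj⟩ : ∃ j, u j ≠ 0 := by
    by_contra hall
    push Not at hall
    exact hu0 (funext hall)
  have h20 : (p : KP P) = 0 := by
    rcases mul_eq_zero.1 (h2 j) with h4 | h4
    · exact h4
    · exact absurd h4 hj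
  have hab : Above p P := by
    unfold Above
    rw [← Ideal.Quotient.eq_zero_iff_mem]
    rw [map_natCast]
    exact h20
  refine hbad P hab ⟨u, huE, hu0, fun i => ?_⟩
  have h5 := hu (ind (B i)) (Or.inl ⟨i, rfl⟩)
  unfold dotb
  have h6 : ∑ j, (if B i j then u j else 0) = ∑ j, ((ind (B i) j : ℤ) : KP P) * u j := by
    refine Finset.sum_congr rfl fun j _ => ?_
    unfold ind
    split_ifs
    · simp
    · simp
  rw [h6]
  exact h5

/-- reduction modulo p -/
def DTP_red (p : ℕ) {t : ℕ} (v : Fin t → ℤ) : Fin t → ZMod p := fun j => (v j : ZMod p)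

lemma DTP_red_mulVec (p : ℕ) {t : ℕ} (H : Matrix (Fin t) (Fin t) ℤ) (v : Fin t → ℤ) :
    DTP_red p (H.mulVec v) = (H.map (Int.cast : ℤ → ZMod p)).mulVec (DTP_red p v) := by
  funext j
  simp [DTP_red, Matrix.mulVec, dotProduct]

lemma DTP_red_pow (p : ℕ) {t : ℕ} (H : Matrix (Fin t) (Fin t) ℤ) (l : ℕ) (v : Fin t → ℤ) :
    DTP_red p ((H ^ l).mulVec v) = ((H.map (Int.cast : ℤ → ZMod p)) ^ l).mulVec (DTP_red p v) := by
  induction l generalizing v with
  | zero => simp
  | succ l ih =>
    rw [pow_succ, pow_succ, ← Matrix.mulVec_mulVec, ← Matrix.mulVec_mulVec, ih, DTP_red_mulVec]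

theorem DTP (h : PBH_stmt) : DTP_stmt := by
  intro t k p H B hp hH hbad
  haveI : Fact p.Prime := ⟨hp⟩
  rcases Nat.eq_zero_or_pos t with rfl | ht
  · exact ⟨fun a => a.elim0, fun a => a.elim0, fun a => a.elim0, by
    rw [Matrix.det_isEmpty]
    intro h1
    exact hp.one_lt.ne' (by exact_mod_cast Int.eq_one_of_dvd_one (by positivity) h1)⟩
  have htop := DTP_top h t k p H B hH hbad
  obtain ⟨Hb, hHb⟩ : ∃ Hb : Matrix (Fin t) (Fin t) (ZMod p), Hb = H.map (Int.cast : ℤ → ZMod p) := ⟨_, rfl⟩
  let v : Fin t × Fin k → (Fin t → ZMod p) := fun q => (Hb ^ (q.1 : ℕ)).mulVec (DTP_red p (ind (B q.2)))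
  have hpow : ∀ (l : ℕ) (i : Fin k), (Hb ^ l).mulVec (DTP_red p (ind (B i))) ∈
      Submodule.span (ZMod p) (Set.range v) := by
    intro l i
    have h1 : aeval Hb Hb.charpoly = 0 := Matrix.aeval_self_charpoly Hb
    have h2 : aeval Hb ((X ^ l : (ZMod p)[X]) %ₘ Hb.charpoly) = Hb ^ l := by
      rw [Polynomial.aeval_modByMonic_eq_self_of_root h1, map_pow, aeval_X]
    have hdeg : ((X ^ l : (ZMod p)[X]) %ₘ Hb.charpoly).natDegree < t := by
      have h3 := Polynomial.natDegree_modByMonic_lt (X ^ l : (ZMod p)[X]) (Matrix.charpoly_monic Hb) (by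
        intro h4
        have h5 := congrArg Polynomial.natDegree h4
        rw [Matrix.charpoly_natDegree_eq_dim, Fintype.card_fin, natDegree_one] at h5
        omega)
      rwa [Matrix.charpoly_natDegree_eq_dim, Fintype.card_fin] at h3
    rw [← h2, Polynomial.aeval_eq_sum_range' hdeg, Matrix.sum_mulVec]
    refine Submodule.sum_mem _ fun j hj => ?_
    rw [Matrix.smul_mulVec]
    refine Submodule.smul_mem _ _ (Submodule.subset_span ?_)
    exact ⟨(⟨j, Finset.mem_range.1 hj⟩, i), rfl⟩
  have hspan : Submodule.span (ZMod p) (Set.range v) = ⊤ := by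
    rw [eq_top_iff]
    intro w _
    -- a lift of w
    have hlift : w = DTP_red p (fun j => ((w j).val : ℤ)) := by
      funext j
      simp [DTP_red]
    have hall : ∀ y : Fin t → ℤ, DTP_red p y ∈ Submodule.span (ZMod p) (Set.range v) := by
      intro y
      have hy : y ∈ Kry H ({v | ∃ i, v = ind (B i)} ∪ {v | ∃ j, v = Pi.single j (p : ℤ)}) := by
        rw [htop]; trivial
      unfold Kry at hy
      induction hy using Submodule.span_induction with
      | mem z hz =>
        obtain ⟨b, hb, l, rfl⟩ := hz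
        rw [DTP_red_pow, ← hHb]
        rcases hb with ⟨i, rfl⟩ | ⟨j, rfl⟩
        · exact hpow l i
        · have h0 : DTP_red p (Pi.single j (p : ℤ) : Fin t → ℤ) = 0 := by
            funext i
            unfold DTP_red
            by_cases hij : i = j
            · subst hij
              rw [Pi.single_eq_same]
              simp
            · rw [Pi.single_eq_of_ne hij]
              simp
          rw [h0, Matrix.mulVec_zero]
          exact Submodule.zero_mem _
      | zero =>
        have h0 : DTP_red p (0 : Fin t → ℤ) = 0 := by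
          funext i
          simp [DTP_red]
        rw [h0]
        exact Submodule.zero_mem _
      | add a b _ _ ha hb =>
        have h0 : DTP_red p (a + b) = DTP_red p a + DTP_red p b := by
          funext i
          simp [DTP_red]
        rw [h0]
        exact Submodule.add_mem _ ha hb
      | smul c a _ ha =>
        have h0 : DTP_red p (c • a) = (c : ZMod p) • DTP_red p a := by
          funext i
          simp [DTP_red]
        rw [h0]
        exact Submodule.smul_mem _ _ ha
    rw [hlift]
    exact hall _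
  obtain ⟨κ, a, -, hsp, hli⟩ := exists_linearIndependent' (ZMod p) v
  rw [hspan] at hsp
  let bas : Module.Basis κ (ZMod p) (Fin t → ZMod p) := Module.Basis.mk hli hsp.ge
  haveI : Finite κ := Module.Finite.finite_basis bas
  haveI : Fintype κ := Fintype.ofFinite κ
  have hcard : Fintype.card κ = Fintype.card (Fin t) := by
    rw [← Module.finrank_eq_card_basis bas, Module.finrank_fintype_fun_eq_card]
  let e : Fin t ≃ κ := (Fintype.equivOfCardEq hcard).symm
  refine ⟨fun i => (a (e i)).1, fun i => (a (e i)).2, fun i => (a (e i)).1.2, ?_⟩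
  have hrow : LinearIndependent (ZMod p) (fun i => v (a (e i))) := hli.comp e e.injective
  have hdet : IsUnit (Matrix.of fun i j => v (a (e i)) j) := by
    rw [← Matrix.linearIndependent_rows_iff_isUnit]
    exact hrow
  rw [Matrix.isUnit_iff_isUnit_det] at hdet
  have hne := hdet.ne_zero
  have hcast : (((Matrix.of fun i j => ((H ^ ((a (e i)).1 : ℕ)).mulVec (ind (B (a (e i)).2))) j).det : ℤ) :
      ZMod p) = (Matrix.of fun i j => v (a (e i)) j).det := by
    have h1 := RingHom.map_det (Int.castRingHom (ZMod p))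
      (Matrix.of fun i j => ((H ^ ((a (e i)).1 : ℕ)).mulVec (ind (B (a (e i)).2))) j)
    rw [eq_intCast] at h1
    rw [h1]
    congr 1
    ext i j
    rw [RingHom.mapMatrix_apply, Matrix.map_apply, Matrix.of_apply, Matrix.of_apply, eq_intCast]
    show DTP_red p ((H ^ ((a (e i)).1 : ℕ)).mulVec (ind (B (a (e i)).2))) j = _
    rw [DTP_red_pow, ← hHb]
  rw [← hcast] at hne
  intro h2
  exact hne ((ZMod.intCast_zmod_eq_zero_iff_dvd _ p).2 h2)

end Pool.Agent.helper42.NS
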